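import Mathlib

/-!
Mousetrap: the structure of the cycles. In a cycle of permutations of `1, ..., n`, `n ≥ 3`, all
members begin with the same `l` cards `1, n, n - 1, ..., n - l + 2`, where `2 l ≤ n + 2`, and any
two consecutive members differ in their card number `l + 1`. In particular `R` has no fixed
points except `1` and `12`.
-/

namespace Pool.Agent.Results.MP_60c156_co.CycleStructure

/-- `Game n d c out`: in Mousetrap with `n` cards at the start, when the remaining deck is the list
`d` (top card first) and the counter is `c`, every remaining card gets removed, and `out` lists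
the removed cards in the order of removal. If the top card equals the counter it is removed and the
counter is reset to `1`; otherwise the top card goes to the bottom and the counter increases by
one, and the game is lost (so that nothing is derivable) when the counter would reach `n + 1`. -/
inductive Game (n : ℕ) : List ℕ → ℕ → List ℕ → Prop
  | nil (c : ℕ) : Game n [] c []
  | remove {d : List ℕ} {c : ℕ} {out : List ℕ} (hc : c ≤ n) (h : Game n d 1 out) :
      Game n (c :: d) c (c :: out)
  | pass {t : ℕ} {d : List ℕ} {c : ℕ} {out : List ℕ} (ht : t ≠ c) (hc : c < n)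
      (h : Game n (d ++ [t]) (c + 1) out) : Game n (t :: d) c out

/-- The list `p` is a permutation of `1, ..., n`. -/
def IsPerm (n : ℕ) (p : List ℕ) : Prop := p.Perm (List.range' 1 n)

/-- `p` is a winning permutation of `1, ..., n` and `R(p) = q`. -/
def Reforms (n : ℕ) (p q : List ℕ) : Prop := IsPerm n p ∧ Game n p 1 q

/-- `p 0, p 1, ...` runs through a cycle: `R(p i) = p (i + 1)` for all `i`, with period `m ≥ 1`. -/
def IsCycle (n m : ℕ) (p : ℕ → List ℕ) : Prop :=
  1 ≤ m ∧ (∀ i, Reforms n (p i) (p (i + 1))) ∧ ∀ i, p (i + m) = p i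

/-- The cards `1, n, n - 1, n - 2, ...`: here the places are numbered from `0`. -/
def lead (n s : ℕ) : ℕ := if s = 0 then 1 else n + 1 - s

/-! ### Proofs -/

/-- A check of the definitions: `R(4213) = 2134`. -/
theorem check_4213 : Reforms 4 [4, 2, 1, 3] [2, 1, 3, 4] := by
  refine ⟨by unfold IsPerm; decide, ?_⟩
  refine Game.pass (by norm_num) (by norm_num) ?_
  refine Game.remove (by norm_num) ?_
  refine Game.remove (by norm_num) ?_
  refine Game.pass (by norm_num) (by norm_num) ?_
  refine Game.pass (by norm_num) (by norm_num) ?_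
  refine Game.remove (by norm_num) ?_
  refine Game.pass (by norm_num) (by norm_num) ?_
  refine Game.pass (by norm_num) (by norm_num) ?_
  refine Game.pass (by norm_num) (by norm_num) ?_
  exact Game.remove (by norm_num) (Game.nil 1)

/-- One round: the next removed card. -/
theorem round {n : ℕ} {D out : List ℕ} {c : ℕ} (h : Game n D c out) (hD : D ≠ []) :
    ∃ k D' out', c ≤ k ∧ k ≤ n ∧ out = k :: out' ∧ D.rotate (k - c) = k :: D' ∧
      Game n D' 1 out' ∧ ∀ j, c ≤ j → j < k → (D.rotate (j - c)).head? ≠ some j := by
  induction h with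
  | nil c => exact absurd rfl hD
  | @remove d c out hc h _ =>
    refine ⟨c, d, out, le_rfl, hc, rfl, by simp, h, ?_⟩
    intro j h1 h2
    omega
  | @pass t d c out ht hc h ih =>
    obtain ⟨k, D', out', h1, h2, h3, h4, h5, h6⟩ := ih (by simp)
    have hrot : ∀ i, (t :: d).rotate (i + 1) = (d ++ [t]).rotate i := by
      intro i
      rw [List.rotate_cons_succ]
    refine ⟨k, D', out', by omega, h2, h3, ?_, h5, ?_⟩
    · have : k - c = (k - (c + 1)) + 1 := by omega
      rw [this, hrot]
      exact h4
    · intro j hj1 hj2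
      rcases Nat.eq_or_lt_of_le hj1 with rfl | hj3
      · simp [ht]
      · have : j - c = (j - (c + 1)) + 1 := by omega
        rw [this, hrot]
        exact h6 j (by omega) hj2

/-- One round in terms of the entries of the deck. -/
theorem round' {n : ℕ} {D out : List ℕ} (h : Game n D 1 out) (hD : D ≠ []) :
    ∃ k out', 1 ≤ k ∧ k ≤ n ∧ out = k :: out' ∧ D[(k - 1) % D.length]? = some k ∧
      (D.length ∣ k - 1 → ∃ D', D = k :: D' ∧ Game n D' 1 out') ∧
      ∀ j, 1 ≤ j → j < k → D[(j - 1) % D.length]? ≠ some j := by
  obtain ⟨k, D', out', h1, h2, h3, h4, h5, h6⟩ := round h hD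
  have hlen : 0 < D.length := List.length_pos_iff.mpr hD
  have key : ∀ i, (D.rotate i).head? = D[i % D.length]? := by
    intro i
    rw [List.head?_eq_getElem?, List.getElem?_rotate hlen, Nat.zero_add]
  refine ⟨k, out', h1, h2, h3, ?_, ?_, ?_⟩
  · rw [← key, h4]
    rfl
  · intro hdvd
    refine ⟨D', ?_, h5⟩
    rw [← h4, ← List.rotate_mod, Nat.mod_eq_zero_of_dvd hdvd, List.rotate_zero]
  · intro j hj1 hj2
    rw [← key]
    exact h6 j hj1 hj2

section

variable {n m : ℕ} {p : ℕ → List ℕ}

theorem len (hR : ∀ i, Reforms n (p i) (p (i + 1))) (i : ℕ) : (p i).length = n := by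
  rw [(hR i).1.length_eq, List.length_range']

theorem nodup (hR : ∀ i, Reforms n (p i) (p (i + 1))) (i : ℕ) : (p i).Nodup :=
  (hR i).1.nodup_iff.mpr List.nodup_range'

theorem mem_p (hR : ∀ i, Reforms n (p i) (p (i + 1))) {i s v : ℕ} (h : (p i)[s]? = some v) :
    1 ≤ v ∧ v ≤ n := by
  have h1 : v ∈ p i := List.mem_of_getElem? h
  have h2 := (hR i).1.mem_iff.mp h1
  rw [List.mem_range'_1] at h2
  omega

theorem inj_p (hR : ∀ i, Reforms n (p i) (p (i + 1))) {i s t v : ℕ} (h : (p i)[s]? = some v)
    (h' : (p i)[t]? = some v) : s = t := by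
  obtain ⟨hs, e1⟩ := List.getElem?_eq_some_iff.mp h
  obtain ⟨ht, e2⟩ := List.getElem?_eq_some_iff.mp h'
  exact (List.Nodup.getElem_inj_iff (nodup hR i)).mp (e1.trans e2.symm)

/-- all members begin with the first `l` cards of `lead` -/
def Beg (n : ℕ) (p : ℕ → List ℕ) (l : ℕ) : Prop := ∀ i s, s < l → (p i)[s]? = some (lead n s)

theorem dvd_lead {s : ℕ} (hs : s < n) : n - s ∣ lead n s - 1 := by
  unfold lead
  split_ifs with h
  · simp
  · have : n + 1 - s - 1 = n - s := by omega
    rw [this]

/-- a card at place `l` which is `1` modulo the number of the remaining cards is `lead n l` -/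
theorem eq_lead (hR : ∀ i, Reforms n (p i) (p (i + 1))) {l : ℕ} (hl : l < n) (hB : Beg n p l)
    {i v : ℕ} (h : (p i)[l]? = some v) (hd : n - l ∣ v - 1) : v = lead n l := by
  obtain ⟨h1, h2⟩ := mem_p hR h
  unfold lead
  split_ifs with h0
  · subst h0
    rcases Nat.eq_zero_or_pos (v - 1) with h3 | h3
    · omega
    · have := Nat.le_of_dvd h3 hd
      omega
  · have hv1 : v ≠ 1 := by
      rintro rfl
      have e := hB i 0 (by omega)
      have : lead n 0 = 1 := rfl
      rw [this] at e
      have := inj_p hR h e
      omega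
    have h4 := Nat.le_of_dvd (by omega) hd
    by_contra hne
    have h5 : v > n + 1 - l := by omega
    obtain ⟨s, hs⟩ : ∃ s, s = n + 1 - v := ⟨_, rfl⟩
    have hs1 : s < l := by omega
    have hs0 : s ≠ 0 := by omega
    have e := hB i s hs1
    have e2 : lead n s = v := by
      unfold lead
      rw [if_neg hs0]
      omega
    rw [e2] at e
    have := inj_p hR h e
    omega

/-- After `l` rounds. -/
theorem game_drop (hR : ∀ i, Reforms n (p i) (p (i + 1))) : ∀ l, l ≤ n → Beg n p l → ∀ i,
    Game n ((p i).drop l) 1 ((p (i + 1)).drop l) := by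
  intro l
  induction l with
  | zero =>
    intro _ _ i
    simpa using (hR i).2
  | succ l ih =>
    intro hl hB i
    have hB' : Beg n p l := fun i s hs => hB i s (by omega)
    have h := ih (by omega) hB' i
    have hlen : ((p i).drop l).length = n - l := by rw [List.length_drop, len hR]
    have hne : (p i).drop l ≠ [] := by
      intro h0
      rw [h0] at hlen
      simp at hlen
      omega
    obtain ⟨k, out', h1, h2, h3, h4, h5, h6⟩ := round' h hne
    have e1 : ((p (i + 1)).drop l)[0]? = some k := by rw [h3]; rfl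
    rw [List.getElem?_drop] at e1
    have e1' : (p (i + 1))[l]? = some k := e1
    rw [hB (i + 1) l (by omega)] at e1'
    have e2 : k = lead n l := (Option.some.inj e1').symm
    rw [hlen, e2] at h5
    obtain ⟨D', h7, h8⟩ := h5 (dvd_lead (by omega))
    have e3 : (p i).drop (l + 1) = D' := by
      have : (p i).drop (l + 1) = ((p i).drop l).drop 1 := by rw [List.drop_drop]
      rw [this, h7]
      rfl
    have e4 : (p (i + 1)).drop (l + 1) = out' := by
      have : (p (i + 1)).drop (l + 1) = ((p (i + 1)).drop l).drop 1 := by rw [List.drop_drop]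
      rw [this, h3]
      rfl
    rw [e3, e4]
    exact h8

/-- the round number `l + 1` -/
theorem round_l (hR : ∀ i, Reforms n (p i) (p (i + 1))) {l : ℕ} (hl : l < n) (hB : Beg n p l)
    (i : ℕ) : ∃ k, 1 ≤ k ∧ k ≤ n ∧ (p (i + 1))[l]? = some k ∧
      (p i)[l + (k - 1) % (n - l)]? = some k ∧
      ∀ j, 1 ≤ j → j < k → (p i)[l + (j - 1) % (n - l)]? ≠ some j := by
  have h := game_drop hR l hl.le hB i
  have hlen : ((p i).drop l).length = n - l := by rw [List.length_drop, len hR]
  have hne : (p i).drop l ≠ [] := by
    intro h0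
    rw [h0] at hlen
    simp at hlen
    omega
  obtain ⟨k, out', h1, h2, h3, h4, h5, h6⟩ := round' h hne
  have e1 : ((p (i + 1)).drop l)[0]? = some k := by rw [h3]; rfl
  rw [List.getElem?_drop] at e1
  rw [hlen, List.getElem?_drop] at h4
  refine ⟨k, h1, h2, e1, h4, ?_⟩
  intro j hj1 hj2
  have := h6 j hj1 hj2
  rwa [hlen, List.getElem?_drop] at this

/-- If two consecutive members agree at place `l`, then all members continue with `lead`. -/
theorem beg_succ (hC : IsCycle n m p) {l : ℕ} (hl : l < n) (hB : Beg n p l)
    {i : ℕ} (h : (p i)[l]? = (p (i + 1))[l]?) : Beg n p (l + 1) := by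
  obtain ⟨hm, hR, hper⟩ := hC
  -- the common card
  obtain ⟨k, h1, h2, h3, h4, -⟩ := round_l hR hl hB i
  have e1 : l + (k - 1) % (n - l) = l := inj_p hR h4 (h.trans h3)
  have hd : n - l ∣ k - 1 := Nat.dvd_of_mod_eq_zero (by omega)
  have hk : k = lead n l := eq_lead hR hl hB h3 hd
  have hi : (p i)[l]? = some (lead n l) := by rw [h, h3, hk]
  -- one step backwards
  have back : ∀ j, (p (j + 1))[l]? = some (lead n l) → (p j)[l]? = some (lead n l) := by
    intro j hj
    obtain ⟨k', h1', h2', h3', h4', -⟩ := round_l hR hl hB j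
    have e2 : k' = lead n l := by
      rw [h3'] at hj
      exact Option.some.inj hj
    rw [e2, Nat.mod_eq_zero_of_dvd (dvd_lead hl), Nat.add_zero] at h4'
    exact h4'
  have back' : ∀ t j, (p (j + t))[l]? = some (lead n l) → (p j)[l]? = some (lead n l) := by
    intro t
    induction t with
    | zero => intro j hj; exact hj
    | succ t ih =>
      intro j hj
      exact ih j (back (j + t) hj)
  have per' : ∀ t j, p (j + t * m) = p j := by
    intro t
    induction t with
    | zero => intro j; simp
    | succ t ih =>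
      intro j
      have : j + (t + 1) * m = (j + t * m) + m := by ring
      rw [this, hper, ih]
  intro j s hs
  rcases Nat.lt_or_ge s l with hs' | hs'
  · exact hB j s hs'
  · have : s = l := by omega
    subst this
    -- j ≤ i + j * m
    have hle : j ≤ i + j * m := by
      have : j * 1 ≤ j * m := Nat.mul_le_mul_left _ hm
      omega
    obtain ⟨t, ht⟩ := Nat.exists_eq_add_of_le hle
    apply back' t j
    rw [← ht, per', hi]

/-- The bound for the number of common cards. -/
theorem beg_bound (hn : 3 ≤ n) (hR : ∀ i, Reforms n (p i) (p (i + 1))) {l : ℕ} (hl : l ≤ n)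
    (hB : Beg n p l) : 2 * l ≤ n + 2 := by
  by_contra hcon
  push Not at hcon
  have leadval : ∀ s, s ≠ 0 → lead n s = n + 1 - s := by
    intro s hs
    unfold lead
    rw [if_neg hs]
  rcases Nat.even_or_odd n with ⟨a, ha⟩ | ⟨a, ha⟩
  · -- the third round
    have hB' : Beg n p 2 := fun i s hs => hB i s (by omega)
    obtain ⟨k, h1, h2, h3, h4, h6⟩ := round_l hR (l := 2) (by omega) hB' 0
    have e1 := hB (0 + 1) 2 (by omega)
    rw [h3, leadval 2 (by omega)] at e1
    have e2 : k = n + 1 - 2 := Option.some.inj e1
    have e3 := h6 a (by omega) (by omega)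
    rw [Nat.mod_eq_of_lt (by omega), hB 0 (2 + (a - 1)) (by omega), leadval _ (by omega)] at e3
    apply e3
    congr 1
    omega
  · have hB' : Beg n p 1 := fun i s hs => hB i s (by omega)
    obtain ⟨k, h1, h2, h3, h4, h6⟩ := round_l hR (l := 1) (by omega) hB' 0
    have e1 := hB (0 + 1) 1 (by omega)
    rw [h3, leadval 1 (by omega)] at e1
    have e2 : k = n + 1 - 1 := Option.some.inj e1
    have e3 := h6 (a + 1) (by omega) (by omega)
    rw [Nat.mod_eq_of_lt (by omega), hB 0 (1 + (a + 1 - 1)) (by omega), leadval _ (by omega)] at e3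
    apply e3
    congr 1
    omega

end

/-- **The structure of the cycles of Mousetrap.** Let `n ≥ 3` and let `p 0, p 1, ...` run through a
cycle of permutations of `1, ..., n` of period `m`. Then `m ≥ 2`, and there is `l` with
`2 l ≤ n + 2` such that all members of the cycle begin with the `l` cards `1, n, n - 1, ...`, while
any two consecutive members have different cards at the next place (the places are numbered from
`0`, so this is the place `l`, and it exists since `l < n`). -/
theorem result (n m : ℕ) (hn : 3 ≤ n) (p : ℕ → List ℕ) (hC : IsCycle n m p) :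
    2 ≤ m ∧ ∃ l : ℕ, 2 * l ≤ n + 2 ∧ l < n ∧
      (∀ i s, s < l → (p i)[s]? = some (if s = 0 then 1 else n + 1 - s)) ∧
      ∀ i, (p i)[l]? ≠ (p (i + 1))[l]? := by
  have hR := hC.2.1
  have hex : ∃ l : ℕ, 2 * l ≤ n + 2 ∧ l < n ∧ Beg n p l ∧ ∀ i, (p i)[l]? ≠ (p (i + 1))[l]? := by
    by_contra hcon
    push Not at hcon
    have hall : ∀ l, l ≤ n → Beg n p l := by
      intro l
      induction l with
      | zero => intro _ i s hs; omega
      | succ l ih =>
        intro hl
        have hB := ih (by omega)
        obtain ⟨i, hi⟩ := hcon l (beg_bound hn hR (by omega) hB) (by omega) hB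
        exact beg_succ hC (by omega) hB hi
    have := beg_bound hn hR le_rfl (hall n le_rfl)
    omega
  obtain ⟨l, h1, h2, h3, h4⟩ := hex
  refine ⟨?_, l, h1, h2, ?_, h4⟩
  · by_contra hm
    have hm1 : m = 1 := by
      have := hC.1
      omega
    have h5 := hC.2.2 0
    rw [hm1] at h5
    exact h4 0 (by rw [h5])
  · intro i s hs
    exact h3 i s hs

end Pool.Agent.Results.MP_60c156_co.CycleStructure
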